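import Mathlib
import Pool.Agent.V1189.RT.NTerm

/-!
# The digits of the terms and the abcd conjecture over `ℚ`

The points `P` of the hyperplane `Z_1 + … + Z_n = 0` over `ℚ` with nonzero coordinates are given by
primitive integer vectors `z`; `h(P) = log max |z_i|` and `rad(P)` is the sum of `log p` over the primes
`p` dividing some coordinate (`z` is primitive, so these are the primes at which the orders of the
coordinates are not all equal). Let `S` be a finite set of primes, `N_S(z_i)` the logarithm of the part of
`z_i` prime to `S`, `b ≥ 2` a base prime to `S`, `a` an integer vector (for instance a unit vector; then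
`a · z` is one of the coordinates), and `r ≥ 1`. We consider `r` pairwise disjoint windows of `l`
consecutive digits each of the base `b` expansion of `|a · z|`. The joint order `m` of these windows is the
least `m` such that the `r` words satisfy a common nontrivial relation

  `c_0 s_i + c_1 s_(i+1) + … + c_m s_(i+m) = 0`   (`1 ≤ i ≤ l - m`),   `c_0, …, c_m ∈ ℚ` not all `0`

(`m = 0` if all digits in the windows are `0`). We prove: for every `ε > 0` there are a proper closed
subset `Z` of the hyperplane, namely a finite union of linear subspaces, and a constant `C` such that for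
all `P` outside `Z` and all windows

  `(1 - ε) h(P) + (r l - (r + n - 1) m) log b ≤ N_S(z_1) + … + N_S(z_n) + C`.

If moreover no prime `p ∉ S` divides a coordinate more than `k` times, or divides more than `t` of the
coordinates, then

  `(1 - ε) h(P) + (r l - (r + n - 1) m) log b ≤ k t rad(P) + C`

with the same `C` for all `k`, `t`; here `t = n - 2` is always possible. For `k = t = 1` (the parts of the
coordinates prime to `S` are squarefree and pairwise coprime; for `n = 3` they are always pairwise coprime)
this is the inequality of the abcd conjecture, improved by the term with the digits.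

The proof uses the subspace theorem (library) for the vectors that consist of the coordinates and of the
integers approximated by the windows, with divisibility conditions at the base `b`, and merges the windows
that are linearly dependent.
-/

set_option autoImplicit false

namespace Pool.Agent.Results.MP_7475bd_nt.DigitsOfTerms

open Finset
open Pool.Agent.V1189.RT.Joint (digit IsWindows HasRelation jointOrder height)
open Pool.Agent.V1189.RT.NTerm (outside Primitive radical)

/-- **The digits of the terms.** See the text at the beginning of the file. -/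
theorem result (n : ℕ) (hn : 3 ≤ n) (S : Finset ℕ) (hS : ∀ p ∈ S, p.Prime) (b : ℕ) (hb : 2 ≤ b)
    (hbS : ∀ p ∈ S, ¬ p ∣ b) (a : Fin n → ℤ) (r : ℕ) (hr : 1 ≤ r) (ε : ℝ) (hε : 0 < ε) :
    ∃ (E : Finset (Fin n → ℤ)) (C : ℝ), (∀ s ∈ E, ∃ i j, s i ≠ s j) ∧
      ∀ z : Fin n → ℤ, Primitive z → ∑ i, z i = 0 → (∀ i, z i ≠ 0) →
      (∀ s ∈ E, ∑ i, s i * z i ≠ 0) → ∀ (W : Fin r → ℕ) (l : ℕ),
      IsWindows b (∑ i, a i * z i).natAbs r W l →
      (1 - ε) * Real.log (height z) +
          ((r : ℝ) * l - (r + n - 1) * jointOrder b (∑ i, a i * z i).natAbs r W l) * Real.log b ≤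
        ∑ i, outside S (z i) + C ∧
      (∀ p : ℕ, p.Prime → (univ.filter fun i => (p : ℤ) ∣ z i).card ≤ n - 2) ∧
      ∀ k t : ℕ, (∀ p : ℕ, p.Prime → p ∉ S → ∀ i, ¬ (p : ℤ) ^ (k + 1) ∣ z i) →
        (∀ p : ℕ, p.Prime → p ∉ S → (univ.filter fun i => (p : ℤ) ∣ z i).card ≤ t) →
        (1 - ε) * Real.log (height z) +
          ((r : ℝ) * l - (r + n - 1) * jointOrder b (∑ i, a i * z i).natAbs r W l) * Real.log b ≤
        k * t * radical z + C := by
  obtain ⟨d, rfl⟩ : ∃ d, n = d + 1 := ⟨n - 1, by omega⟩
  obtain ⟨E, C, hE, hmain⟩ := Pool.Agent.V1189.RT.NTerm.nterm d b r (by omega) S hS hb hbS a hr ε hε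
  refine ⟨E, C, hE, fun z hz hsum hz0 hzE W l hW => ?_⟩
  have h1 := hmain z hz hsum hz0 hzE W l hW
  have h2 : (1 - ε) * Real.log (height z) +
      ((r : ℝ) * l - (r + (d + 1 : ℕ) - 1) * jointOrder b (∑ i, a i * z i).natAbs r W l) *
        Real.log b ≤ ∑ i, outside S (z i) + C := by
    push_cast
    refine le_trans (le_of_eq ?_) h1
    ring
  refine ⟨h2, fun p hp => ?_, fun k t hk ht => h2.trans ?_⟩
  · have := Pool.Agent.V1189.RT.NTerm.card_dvd (by omega) z hz hsum p hp
    omega
  · have := Pool.Agent.V1189.RT.NTerm.outside_le' S k t z hz0 hk ht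
    linarith

end Pool.Agent.Results.MP_7475bd_nt.DigitsOfTerms
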