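import Pool.Agent.Results.MP_44a246_nt.ManyTermAbc
import Pool.Agent.H2N.NearSpace
import Pool.Agent.H107.MetricZero

/-!
# The abcd conjecture for all points near almost every point, without an epsilon

Let `K` be a number field, `n ≥ 3`, and let `h(P)`, `rad(P)` be the height and the radical of the points `P` of the
hyperplane `z_1 + ⋯ + z_n = 0` of `ℙ^(n-1)(K)` without vanishing sub-sums. Let `β = 1 - 1 / binom(n, ⌊n/2⌋)` and `θ ≥ 0`.
For every map `φ` to a metric space, `σ > 0` and all points `z` outside a set of Hausdorff dimension at most `θ β / σ` all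
but finitely many `P` with `dist (φ P) z ≤ H_K(P) ^ (-σ)` satisfy `rad(P) > θ h(P) + c`, for every `c`. With `θ = 1` this is
the inequality of the problem without `ε`, off the hyperplanes `∑_{i ∈ I} z_i = 0`.

For almost every `z ∈ ℝ^(n-2)` this holds for all points near `z` with coordinates in `K`, for all number fields `K ⊂ ℝ`,
all `θ ≥ 0` and all `σ > θ β / (n - 2)`. By Dirichlet's theorem every `z` has infinitely many rational approximations with
`σ < (n - 1) / (n - 2)`; hence `θ = 1` is covered, and even all `θ < (n - 1) / β`, which is larger than `n - 1`.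

Outside a set of dimension ZERO and for every `σ > 0` an inequality `h(P) ≤ κ (rad(P) + 1)` holds for ALL points
without vanishing sub-sums near `z`; one set works for all number fields in `ℂ`.
-/

set_option autoImplicit false

open NumberField IsDedekindDomain Filter Topology MeasureTheory
open scoped ENNReal NNReal

namespace Pool.Agent.Results.MP_7475bd_nt.NearAlmostEveryPoint

open MP_44a246_nt.ManyTermAbc (localHeight truncated)

section
variable {K : Type} [Field K] [NumberField K] {n : ℕ}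

/-- the absolute logarithmic height of a point -/
noncomputable def h (P : Projectivization K (Fin n → K)) : ℝ := P.logHeight / Module.finrank ℚ K

/-- the radical of a point: the sum of `log N(v) / [K : ℚ]` over the primes `v` at which the orders of the coordinates
are not all equal (that is, the local height `∑_i log (max_j |z_j|_v / |z_i|_v)` is positive) -/
noncomputable def rad (P : Projectivization K (Fin n → K)) : ℝ := truncated ∅ P.rep / Module.finrank ℚ K

/-- the points of the hyperplane `z_1 + ⋯ + z_n = 0` without vanishing sub-sums (in particular all coordinates are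
different from zero) -/
def OnH (P : Projectivization K (Fin n → K)) : Prop :=
  ∑ i, P.rep i = 0 ∧ ∀ I : Finset (Fin n), I.Nonempty → I ≠ Finset.univ → ∑ i ∈ I, P.rep i ≠ 0

theorem n_pos : (0 : ℝ) < Module.finrank ℚ K := by exact_mod_cast (Module.finrank_pos (R := ℚ) (M := K))

theorem one_le_H (P : Projectivization K (Fin n → K)) : 1 ≤ P.mulHeight := by
  induction P using Projectivization.ind with
  | h v hv =>
    rw [Projectivization.mulHeight_mk]
    exact Height.one_le_mulHeight v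

theorem log_H (P : Projectivization K (Fin n → K)) : P.logHeight = Real.log P.mulHeight := by
  induction P using Projectivization.ind with
  | h v hv =>
    rw [Projectivization.mulHeight_mk, Projectivization.logHeight_mk]
    rfl

theorem h_nonneg (P : Projectivization K (Fin n → K)) : 0 ≤ h P := by
  unfold h
  rw [log_H]
  exact div_nonneg (Real.log_nonneg (one_le_H P)) n_pos.le

theorem rad_nonneg (P : Projectivization K (Fin n → K)) : 0 ≤ rad P := by
  unfold rad truncated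
  refine div_nonneg (finsum_nonneg fun v => finsum_nonneg fun _ => ?_) n_pos.le
  exact Real.log_natCast_nonneg _

/-- the points which violate the inequality -/
def Bad (K : Type) [Field K] [NumberField K] (n : ℕ) (θ c : ℝ) : Set (Projectivization K (Fin n → K)) :=
  {P | OnH P ∧ rad P ≤ θ * h P + c}

theorem bad_mono {θ θ' c c' : ℝ} (hθ : θ ≤ θ') (hc : c ≤ c') : Bad K n θ c ⊆ Bad K n θ' c' := by
  rintro P ⟨h1, h2⟩
  refine ⟨h1, h2.trans ?_⟩
  have := mul_le_mul_of_nonneg_right hθ (h_nonneg P)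
  linarith

/-- the constant `β` -/
noncomputable def beta (n : ℕ) : ℝ := 1 - 1 / (n.choose (n / 2) : ℝ)

theorem beta_nonneg (n : ℕ) : 0 ≤ beta n := by
  unfold beta
  have h1 : (1 : ℝ) ≤ (n.choose (n / 2) : ℝ) := by
    exact_mod_cast Nat.choose_pos (Nat.div_le_self n 2)
  rw [sub_nonneg, div_le_one (by linarith)]
  exact h1

theorem count (hn : 3 ≤ n) {θ : ℝ} (hθ : 0 ≤ θ) (c : ℝ) {ε : ℝ} (hε : 0 < ε) :
    ∃ C : ℝ, ∀ X : ℝ, 1 ≤ X → {P : Projectivization K (Fin n → K) | P ∈ Bad K n θ c ∧ P.mulHeight ≤ X}.Finite ∧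
      ({P : Projectivization K (Fin n → K) | P ∈ Bad K n θ c ∧ P.mulHeight ≤ X}.ncard : ℝ) ≤
        C * X ^ (θ * beta n + ε) := by
  have hd : (0 : ℝ) < Module.finrank ℚ K := n_pos
  obtain ⟨C, hC⟩ := MP_44a246_nt.ManyTermAbc.result K ∅ Set.finite_empty n hn θ (Module.finrank ℚ K * c) ε hθ hε
  refine ⟨C, fun X hX => ?_⟩
  have e : {P : Projectivization K (Fin n → K) | P ∈ Bad K n θ c ∧ P.mulHeight ≤ X} =
      {P : Projectivization K (Fin n → K) | ∑ i, P.rep i = 0 ∧
        (∀ I : Finset (Fin n), I.Nonempty → I ≠ Finset.univ → ∑ i ∈ I, P.rep i ≠ 0) ∧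
        P.mulHeight ≤ X ∧ truncated ∅ P.rep ≤ θ * P.logHeight + Module.finrank ℚ K * c} := by
    ext P
    have e1 : rad P ≤ θ * h P + c ↔ truncated ∅ P.rep ≤ θ * P.logHeight + Module.finrank ℚ K * c := by
      unfold rad h
      rw [div_le_iff₀ hd]
      have : (θ * (P.logHeight / (Module.finrank ℚ K : ℝ)) + c) * (Module.finrank ℚ K : ℝ) =
          θ * P.logHeight + Module.finrank ℚ K * c := by
        field_simp
      rw [this]
    constructor
    · rintro ⟨⟨⟨g1, g2⟩, g3⟩, g4⟩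
      exact ⟨g1, g2, g4, e1.1 g3⟩
    · rintro ⟨g1, g2, g4, g3⟩
      exact ⟨⟨⟨g1, g2⟩, e1.2 g3⟩, g4⟩
  rw [e]
  exact hC X hX

theorem nat_bad {M : Type} [MetricSpace M] {φ : Projectivization K (Fin n → K) → M} {z : M} {θ σ : ℝ}
    (h : ∀ m : ℕ, {P | P ∈ Bad K n θ (m : ℝ) ∧ dist (φ P) z ≤ P.mulHeight ^ (-σ)}.Finite) (c : ℝ) :
    {P | P ∈ Bad K n θ c ∧ dist (φ P) z ≤ P.mulHeight ^ (-σ)}.Finite := by
  obtain ⟨m, hm⟩ := exists_nat_ge c
  exact (h m).subset fun x hx => ⟨bad_mono le_rfl hm hx.1, hx.2⟩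

end

/-- part (1) -/
theorem part_one (K : Type) [Field K] [NumberField K] {n : ℕ} (hn : 3 ≤ n) {θ σ : ℝ} (hθ : 0 ≤ θ) (hσ : 0 < σ)
    (M : Type) [MetricSpace M] (φ : Projectivization K (Fin n → K) → M) :
    ∃ E : Set M, dimH E ≤ ENNReal.ofReal (θ * beta n / σ) ∧ ∀ z ∉ E, ∀ c : ℝ,
      {P | P ∈ Bad K n θ c ∧ dist (φ P) z ≤ P.mulHeight ^ (-σ)}.Finite := by
  obtain ⟨E, h1, h2⟩ := Pool.Agent.H107.ME.dim_family φ (fun P : Projectivization K (Fin n → K) => P.mulHeight)
    (fun P => one_le_H P) (s := θ * beta n) (mul_nonneg hθ (beta_nonneg n)) hσ (fun m : ℕ => Bad K n θ (m : ℝ))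
    (fun m ε hε => count hn hθ (m : ℝ) hε)
  exact ⟨E, h1, fun z hz c => nat_bad (fun m => h2 z hz m) c⟩

/-- part (2): the weak form outside a set of dimension zero -/
theorem part_two (K : Type) [Field K] [NumberField K] {n : ℕ} (hn : 3 ≤ n)
    (M : Type) [MetricSpace M] (φ : Projectivization K (Fin n → K) → M) :
    ∃ E : Set M, dimH E = 0 ∧ ∀ z ∉ E, ∀ σ : ℝ, 0 < σ → ∃ κ : ℝ, 0 < κ ∧ ∀ P : Projectivization K (Fin n → K),
      OnH P → dist (φ P) z ≤ P.mulHeight ^ (-σ) → h P ≤ κ * (rad P + 1) := by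
  obtain ⟨E, hE, h0⟩ := Pool.Agent.H107.ME.dim_zero φ (fun P : Projectivization K (Fin n → K) => P.mulHeight)
    (fun P => one_le_H P) (fun R : ℕ => Bad K n (1 / ((R : ℝ) + 1)) 0) (fun ε hε => by
      obtain ⟨R, hR⟩ := exists_nat_ge (2 / ε)
      have hR0 : (0 : ℝ) ≤ R := Nat.cast_nonneg R
      obtain ⟨C, hC⟩ := count (K := K) hn (θ := 1 / ((R : ℝ) + 1)) (by positivity) 0 (half_pos hε)
      refine ⟨R, max C 0, fun X hX => ⟨(hC X hX).1, (hC X hX).2.trans ?_⟩⟩
      have h1 : 1 / ((R : ℝ) + 1) * beta n + ε / 2 ≤ ε := by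
        have h2 : 1 / ((R : ℝ) + 1) * beta n ≤ 1 / ((R : ℝ) + 1) * 1 := by
          refine mul_le_mul_of_nonneg_left ?_ (by positivity)
          unfold beta
          have : (0 : ℝ) ≤ 1 / (n.choose (n / 2) : ℝ) := by positivity
          linarith
        have h3 : 1 / ((R : ℝ) + 1) * 1 ≤ ε / 2 := by
          rw [mul_one, div_le_iff₀ (by positivity)]
          rw [div_le_iff₀ hε] at hR
          nlinarith
        linarith
      calc C * X ^ (1 / ((R : ℝ) + 1) * beta n + ε / 2)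
          ≤ max C 0 * X ^ (1 / ((R : ℝ) + 1) * beta n + ε / 2) :=
            mul_le_mul_of_nonneg_right (le_max_left _ _) (Real.rpow_nonneg (by linarith) _)
        _ ≤ max C 0 * X ^ ε :=
            mul_le_mul_of_nonneg_left (Real.rpow_le_rpow_of_exponent_le hX h1) (le_max_right _ _))
  refine ⟨E, hE, fun z hz σ hσ => ?_⟩
  obtain ⟨R, hfin⟩ := h0 z hz σ hσ
  obtain ⟨A, hA⟩ := (hfin.image (fun P => h P)).bddAbove
  have hR0 : (0 : ℝ) ≤ R := Nat.cast_nonneg R
  refine ⟨max ((R : ℝ) + 1) A, lt_max_of_lt_left (by linarith), fun P hP hd => ?_⟩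
  have h3 := rad_nonneg P
  by_cases hb : P ∈ Bad K n (1 / ((R : ℝ) + 1)) 0
  · have h4 : h P ≤ A := hA ⟨P, ⟨hb, hd⟩, rfl⟩
    have h5 : A ≤ max ((R : ℝ) + 1) A := le_max_right _ _
    have h6 : 0 ≤ max ((R : ℝ) + 1) A := le_max_of_le_left (by linarith)
    nlinarith
  · have h4 : h P < ((R : ℝ) + 1) * rad P := by
      by_contra hcon
      push Not at hcon
      refine hb ⟨hP, ?_⟩
      have h5 : rad P * ((R : ℝ) + 1) ≤ h P := by linarith
      rw [add_zero, one_div, inv_mul_eq_div, le_div_iff₀ (by positivity)]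
      exact h5
    have h5 : (R : ℝ) + 1 ≤ max ((R : ℝ) + 1) A := le_max_left _ _
    have h6 := mul_le_mul_of_nonneg_right h5 h3
    have h7 : 0 ≤ max ((R : ℝ) + 1) A := le_max_of_le_left (by linarith)
    nlinarith

/-- there are countably many number fields in a field of characteristic zero -/
theorem countable_fields (F : Type) [Field F] [CharZero F] :
    {K : IntermediateField ℚ F | FiniteDimensional ℚ K}.Countable := by
  classical
  have hA : {x : F | IsAlgebraic ℚ x}.Countable := Algebraic.countable ℚ F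
  have hF : {s : Set F | s.Finite ∧ s ⊆ {x : F | IsAlgebraic ℚ x}}.Countable := Set.countable_ofPred_finite_subset hA
  refine (hF.image fun s => IntermediateField.adjoin ℚ s).mono ?_
  intro K hK
  have hK' : FiniteDimensional ℚ K := hK
  obtain ⟨s, hs⟩ : ∃ s : Finset F, IntermediateField.adjoin ℚ (s : Set F) = K := by
    obtain ⟨s, hs⟩ := IntermediateField.essFiniteType_iff.1 (inferInstance : Algebra.EssFiniteType ℚ K)
    exact ⟨s, hs⟩
  refine ⟨s, ⟨s.finite_toSet, fun x hx => ?_⟩, hs⟩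
  have hxK : x ∈ K := by
    rw [← hs]
    exact IntermediateField.subset_adjoin _ _ hx
  have h1 : IsAlgebraic ℚ (⟨x, hxK⟩ : K) := Algebra.IsAlgebraic.isAlgebraic _
  exact h1.algebraMap (A := F)

/-- the affine coordinates `z_i / z_n`, `i = 1, …, n - 2`, of a point of `z_1 + ⋯ + z_n = 0` -/
noncomputable def affine {E : Type} [Field E] [CharZero E] {K : IntermediateField ℚ E} {m : ℕ}
    (P : Projectivization K (Fin (m + 2) → K)) : Fin m → E :=
  fun i => ((P.rep i.castSucc.castSucc / P.rep (Fin.last (m + 1)) : K) : E)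

/-- almost every point of a space with Haar measure -/
theorem one_field (K : Type) [Field K] [NumberField K] {n : ℕ} (hn : 3 ≤ n) {V : Type} [NormedAddCommGroup V]
    [NormedSpace ℝ V] [FiniteDimensional ℝ V] [MeasurableSpace V] [BorelSpace V] (μ : Measure V)
    [μ.IsAddHaarMeasure] (hV : 0 < Module.finrank ℝ V) (φ : Projectivization K (Fin n → K) → V) :
    ∀ᵐ z ∂μ, ∀ θ : ℝ, 0 ≤ θ → ∀ σ : ℝ, θ * beta n / Module.finrank ℝ V < σ → ∀ c : ℝ,
      {P | P ∈ Bad K n θ c ∧ dist (φ P) z ≤ P.mulHeight ^ (-σ)}.Finite := by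
  have hd : (0 : ℝ) < Module.finrank ℝ V := by exact_mod_cast hV
  have h1 : ∀ᵐ z ∂μ, ∀ q : ℚ, 0 ≤ (q : ℝ) → ∀ σ : ℝ, (q : ℝ) * beta n / Module.finrank ℝ V < σ → ∀ m : ℕ,
      {P | P ∈ Bad K n q (m : ℝ) ∧ dist (φ P) z ≤ P.mulHeight ^ (-σ)}.Finite := by
    rw [ae_all_iff]
    intro q
    by_cases hq : 0 ≤ (q : ℝ)
    · filter_upwards [Pool.Agent.H2N.ae_family_space μ hV φ
        (fun P : Projectivization K (Fin n → K) => P.mulHeight) (fun P => one_le_H P)
        (mul_nonneg hq (beta_nonneg n)) (fun m : ℕ => Bad K n q (m : ℝ))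
        (fun m ε hε => count hn hq (m : ℝ) hε)] with z hz _
      exact hz
    · exact Eventually.of_forall fun z h => absurd h hq
  filter_upwards [h1] with z hz θ hθ σ hσ c
  have hcont : Tendsto (fun s : ℝ => s * beta n / (Module.finrank ℝ V : ℝ)) (𝓝 θ)
      (𝓝 (θ * beta n / (Module.finrank ℝ V : ℝ))) :=
    (tendsto_id.mul_const _).div_const _
  obtain ⟨δ, hδ, h4⟩ := Metric.eventually_nhds_iff.1 (hcont.eventually_lt_const hσ)
  obtain ⟨q, hq1, hq2⟩ := exists_rat_btwn (show θ < θ + δ by linarith)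
  have h5 := h4 (y := (q : ℝ)) (by rw [Real.dist_eq, abs_lt]; constructor <;> linarith)
  exact nat_bad (fun m => (hz q (by linarith) σ h5 m).subset fun P hP => ⟨bad_mono hq1.le le_rfl hP.1, hP.2⟩) c

/-- all number fields in `E = ℝ` or `E = ℂ` at once -/
theorem all_fields (E : Type) [NormedField E] [CharZero E] {m : ℕ} (hm : 1 ≤ m)
    [NormedSpace ℝ (Fin m → E)] [FiniteDimensional ℝ (Fin m → E)]
    [MeasurableSpace (Fin m → E)] [BorelSpace (Fin m → E)] (μ : Measure (Fin m → E)) [μ.IsAddHaarMeasure]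
    (hV : 0 < Module.finrank ℝ (Fin m → E)) :
    ∀ᵐ z ∂μ, ∀ (K : IntermediateField ℚ E) [NumberField K] (θ : ℝ), 0 ≤ θ →
      ∀ σ : ℝ, θ * beta (m + 2) / Module.finrank ℝ (Fin m → E) < σ → ∀ c : ℝ,
        {P : Projectivization K (Fin (m + 2) → K) | P ∈ Bad K (m + 2) θ c ∧
          dist (affine P) z ≤ P.mulHeight ^ (-σ)}.Finite := by
  have h5 : ∀ᵐ z ∂μ, ∀ K ∈ {K : IntermediateField ℚ E | FiniteDimensional ℚ K}, ∀ [NumberField K] (θ : ℝ), 0 ≤ θ →
      ∀ σ : ℝ, θ * beta (m + 2) / Module.finrank ℝ (Fin m → E) < σ → ∀ c : ℝ,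
        {P : Projectivization K (Fin (m + 2) → K) | P ∈ Bad K (m + 2) θ c ∧
          dist (affine P) z ≤ P.mulHeight ^ (-σ)}.Finite := by
    rw [ae_ball_iff (countable_fields E)]
    intro K hK
    have hK' : FiniteDimensional ℚ K := hK
    have hNF : NumberField K := ⟨⟩
    filter_upwards [one_field K (n := m + 2) (by omega) μ hV affine] with z hz
    intro _
    exact hz
  filter_upwards [h5] with z hz K hK
  exact hz K (inferInstance : FiniteDimensional ℚ K)

/-- **Theorem.** Let `β(n) = 1 - 1 / binom(n, ⌊n/2⌋)` and let `Bad K n θ c` be the set of the points `P` of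
`z_1 + ⋯ + z_n = 0` over `K` without vanishing sub-sums with `rad(P) ≤ θ h(P) + c`.
(1) Let `K` be a number field, `n ≥ 3`, `θ ≥ 0`, `σ > 0` and `φ` a map of `ℙ^(n-1)(K)` to a metric space `M`. There is a set
`E ⊆ M` of Hausdorff dimension at most `θ β(n) / σ` such that for all `z` outside `E` and all `c` only finitely many `P` in
`Bad K n θ c` satisfy `dist (φ P) z ≤ H_K(P) ^ (-σ)`.
(2) There is a set `E ⊆ M` of dimension zero such that for all `z` outside `E` and all `σ > 0` there is `κ` such that ALL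
points `P` without vanishing sub-sums with `dist (φ P) z ≤ H_K(P) ^ (-σ)` satisfy `h(P) ≤ κ (rad(P) + 1)`.
(3) Let `m ≥ 1`. For almost every `z ∈ ℝ^m`, all number fields `K ⊂ ℝ`, `θ ≥ 0`, `σ > θ β(m + 2) / m` and `c`, only finitely
many `P` in `Bad K (m + 2) θ c` satisfy `|z_i(P) / z_{m+2}(P) - z_i| ≤ H_K(P) ^ (-σ)` for `i = 1, …, m`.
(4) The same holds for almost every `z ∈ ℂ^m`, all number fields `K ⊂ ℂ` and `σ > θ β(m + 2) / (2 m)`. -/
theorem result :
    (∀ (K : Type) [Field K] [NumberField K] (n : ℕ), 3 ≤ n → ∀ θ σ : ℝ, 0 ≤ θ → 0 < σ → ∀ (M : Type) [MetricSpace M]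
      (φ : Projectivization K (Fin n → K) → M), ∃ E : Set M, dimH E ≤ ENNReal.ofReal (θ * beta n / σ) ∧
        ∀ z : M, z ∉ E → ∀ c : ℝ, {P | P ∈ Bad K n θ c ∧ dist (φ P) z ≤ P.mulHeight ^ (-σ)}.Finite) ∧
    (∀ (K : Type) [Field K] [NumberField K] (n : ℕ), 3 ≤ n → ∀ (M : Type) [MetricSpace M]
      (φ : Projectivization K (Fin n → K) → M), ∃ E : Set M, dimH E = 0 ∧ ∀ z : M, z ∉ E → ∀ σ : ℝ, 0 < σ →
        ∃ κ : ℝ, 0 < κ ∧ ∀ P : Projectivization K (Fin n → K), OnH P → dist (φ P) z ≤ P.mulHeight ^ (-σ) →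
          h P ≤ κ * (rad P + 1)) ∧
    (∀ m : ℕ, 1 ≤ m → ∀ᵐ z : Fin m → ℝ, ∀ (K : IntermediateField ℚ ℝ) [NumberField K] (θ : ℝ), 0 ≤ θ →
      ∀ σ : ℝ, θ * beta (m + 2) / m < σ → ∀ c : ℝ,
        {P : Projectivization K (Fin (m + 2) → K) | P ∈ Bad K (m + 2) θ c ∧
          ∀ i, |affine P i - z i| ≤ P.mulHeight ^ (-σ)}.Finite) ∧
    (∀ m : ℕ, 1 ≤ m → ∀ᵐ z : Fin m → ℂ, ∀ (K : IntermediateField ℚ ℂ) [NumberField K] (θ : ℝ), 0 ≤ θ →
      ∀ σ : ℝ, θ * beta (m + 2) / (2 * m) < σ → ∀ c : ℝ,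
        {P : Projectivization K (Fin (m + 2) → K) | P ∈ Bad K (m + 2) θ c ∧
          ∀ i, ‖affine P i - z i‖ ≤ P.mulHeight ^ (-σ)}.Finite) := by
  refine ⟨fun K _ _ n hn θ σ hθ hσ M _ φ => part_one K hn hθ hσ M φ, fun K _ _ n hn M _ φ => part_two K hn M φ,
    fun m hm => ?_, fun m hm => ?_⟩
  · have hV : Module.finrank ℝ (Fin m → ℝ) = m := by rw [Module.finrank_fin_fun]
    filter_upwards [all_fields ℝ hm (volume : Measure (Fin m → ℝ)) (by rw [hV]; exact hm)] with z hz K hK θ hθ σ hσ c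
    refine (hz K θ hθ σ (by rw [hV]; exact hσ) c).subset ?_
    rintro x ⟨h1, h2⟩
    refine ⟨h1, ?_⟩
    rw [dist_pi_le_iff (Real.rpow_nonneg (zero_le_one.trans (one_le_H x)) _)]
    intro i
    rw [Real.dist_eq]
    exact h2 i
  · have hV : (Module.finrank ℝ (Fin m → ℂ) : ℝ) = 2 * m := by
      rw [Module.finrank_pi_fintype]
      simp
      ring
    have hV0 : 0 < Module.finrank ℝ (Fin m → ℂ) := by
      have h1 : (0 : ℝ) < (Module.finrank ℝ (Fin m → ℂ) : ℝ) := by
        rw [hV]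
        have : (1 : ℝ) ≤ m := by exact_mod_cast hm
        linarith
      exact_mod_cast h1
    filter_upwards [all_fields ℂ hm (volume : Measure (Fin m → ℂ)) hV0] with z hz K hK θ hθ σ hσ c
    refine (hz K θ hθ σ (by rw [hV]; exact hσ) c).subset ?_
    rintro x ⟨h1, h2⟩
    refine ⟨h1, ?_⟩
    rw [dist_pi_le_iff (Real.rpow_nonneg (zero_le_one.trans (one_le_H x)) _)]
    intro i
    rw [dist_eq_norm]
    exact h2 i

end Pool.Agent.Results.MP_7475bd_nt.NearAlmostEveryPoint
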