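import Pool.Agent.Results.MP_7475bd_nt.WindowsOfRadicals
import Pool.Agent.V11001.KM.Near

/-!
# The n-term abc inequality without exceptions on all rational curves, radicals near the powers of almost every number

`K` is a number field. For a point `Z` with nonzero coordinates in `K` let `R(Z)` be the product of the norms of the
primes at which the orders of the coordinates are not all equal, so that `log R(Z) = [K : ℚ] rad(Z)`. We consider all
curves `t ↦ (P 0 (t) : ... : P (n-1) (t))` over `K` of degree `D` which meet the coordinate hyperplanes in `q ≥ 3` points,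
all of them `K`-rational; for example those which lie in the hyperplane `Z_1 + ... + Z_n = 0`. The height of the curve
may be as large as a small multiple of the radical of the point.

Let `ν m / log m → ∞`, for example `ν m = m`. For almost every real `x > 1`, for ALL `n`, `D`, `q`, `M > D / q`, `c` and
`θ < 1 - 2 / q` at once: ALL points `Z` with a large `R(Z)` such that `|R(Z) - x ^ (ν m)| ≤ x ^ (θ ν m)` for some `m`, of
whatever height, on ALL these curves satisfy `h(Z) < M rad(Z) + c`.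
-/

set_option autoImplicit false

namespace Pool.Agent.Results.MP_7475bd_nt.RadicalsNearPowers

open NumberField IsDedekindDomain Polynomial Filter MeasureTheory
open Pool.Agent.V11001.KM (Fast Near)
open AllRationalCurvesAtOnce (zeros rad height Curve coordinates)
open WindowsOfRadicals (normRad Holds Exc Adm size between between_spec holds_of exists_eta)

/-- **Theorem.** Let `K` be a number field. There are `η (n, D, q, M) > 0` such that for all `ν` with `ν m / log m → ∞`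
and all countable sets `U` of reals:
(1) for `q ≥ 3` and `θ < 1` there is a set `E` of Hausdorff dimension at most `(2 / q) / (1 - θ)` such that for all
`x > 1` outside `E`, all positive `y` in `U`, all `n`, `D ≥ 1`, `q' ≥ q`, `M > D / q'` and all real `c` there is `H₀` such
that all points `Z` with nonzero coordinates, `R(Z) ≥ H₀` and `|R(Z) - y x ^ (ν m)| ≤ x ^ (θ ν m)` for some `m`, of
whatever height, on all split curves of degree `D` in `P^(n-1)` over `K` which meet the coordinate hyperplanes in `q'`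
points and whose height is at most `η rad(Z)` satisfy `h(Z) < M rad(Z) + c`;
(2) for almost every `x > 1` this holds for all `n`, `D ≥ 1`, `q' ≥ 3`, all `θ < 1 - 2 / q'`, `M > D / q'` and `c`. -/
theorem result (K : Type) [Field K] [NumberField K] :
    ∃ η : ℕ → ℕ → ℕ → ℝ → ℝ, (∀ n D q M, 0 < η n D q M) ∧
      ∀ (ν : ℕ → ℝ), Fast ν → ∀ U : Set ℝ, U.Countable →
        (∀ (q : ℕ) (θ : ℝ), 3 ≤ q → θ < 1 →
          ∃ E : Set ℝ, dimH E ≤ ENNReal.ofReal (2 / q / (1 - θ)) ∧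
            ∀ x : ℝ, 1 < x → x ∉ E → ∀ y ∈ U, 0 < y → ∀ n D q' : ℕ, 1 ≤ D → q ≤ q' → ∀ M : ℝ, (D : ℝ) / q' < M →
              ∀ c : ℝ, ∃ H₀ : ℝ, Holds K n D q' (η n D q' M) M c {R : ℝ | H₀ ≤ R ∧ Near ν θ y x R}) ∧
        (∀ᵐ x : ℝ, 1 < x → ∀ y ∈ U, 0 < y → ∀ n D q' : ℕ, 1 ≤ D → 3 ≤ q' → ∀ θ : ℝ, θ < 1 - 2 / q' →
          ∀ M : ℝ, (D : ℝ) / q' < M → ∀ c : ℝ,
            ∃ H₀ : ℝ, Holds K n D q' (η n D q' M) M c {R : ℝ | H₀ ≤ R ∧ Near ν θ y x R}) := by
  classical
  obtain ⟨η, hη, hcount⟩ := exists_eta K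
  refine ⟨fun n D q M => η (n, D, q, between D q M), fun n D q M => hη _, fun ν hν U hU => ⟨?_, ?_⟩⟩
  · intro q θ hq hθ
    have h1θ : 0 < 1 - θ := by linarith
    have hall : ∀ j : (ℕ × ℕ × ℕ × ℚ) × ℕ, ∃ E : Set ℝ, dimH E ≤ ENNReal.ofReal (2 / q / (1 - θ)) ∧
        (Adm j.1 → q ≤ j.1.2.2.1 → ∀ x : ℝ, 1 < x → x ∉ E → ∀ y ∈ U, 0 < y → ∃ H₀ : ℝ,
          ∀ Q ∈ Exc K j.1.1 j.1.2.1 j.1.2.2.1 (η j.1) j.1.2.2.2 (-(j.2 : ℝ)), Near ν θ y x (size Q) →
            size Q < H₀) := by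
      intro j
      by_cases hj : Adm j.1 ∧ q ≤ j.1.2.2.1
      · obtain ⟨E, h1, h2⟩ := Pool.Agent.V11001.KM.family_threshold size hν
          (s := 2 / (j.1.2.2.1 : ℝ)) (by positivity) hθ U hU (J := Unit)
          (fun _ => Exc K j.1.1 j.1.2.1 j.1.2.2.1 (η j.1) j.1.2.2.2 (-(j.2 : ℝ)))
          (fun _ ε hε => hcount j.1 hj.1 _ ε hε)
        refine ⟨E, h1.trans (ENNReal.ofReal_le_ofReal ?_), fun _ _ x hx hxE y hy hy0 => h2 x hx hxE y hy hy0 ()⟩
        refine div_le_div_of_nonneg_right ?_ h1θ.le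
        have hq0 : (0 : ℝ) < q := by exact_mod_cast (by omega : 0 < q)
        have h3 : (q : ℝ) ≤ j.1.2.2.1 := by exact_mod_cast hj.2
        exact div_le_div_of_nonneg_left (by norm_num) hq0 h3
      · exact ⟨∅, by simp, fun g1 g2 => absurd ⟨g1, g2⟩ hj⟩
    choose E hE1 hE2 using hall
    refine ⟨⋃ j, E j, ?_, fun x hx hxE y hy hy0 n D q' hD hq' M hM c => ?_⟩
    · rw [dimH_iUnion]
      exact iSup_le hE1
    · obtain ⟨l, hl⟩ := exists_nat_ge (-c)
      have hb := between_spec hM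
      obtain ⟨H₀, hH⟩ := hE2 ((n, D, q', between D q' M), l) ⟨hD, hq.trans hq', hb.1⟩ hq' x hx
        (fun h => hxE (Set.mem_iUnion.2 ⟨_, h⟩)) y hy hy0
      exact ⟨H₀, holds_of (l := l) hb.2.le hl fun Q hQ hW => absurd (hH Q hQ hW.2) (not_lt.2 hW.1)⟩
  · have hq : ∀ j : (ℕ × ℕ × ℕ × ℚ) × ℕ, ∀ᵐ x : ℝ, Adm j.1 → 1 < x → ∀ θ : ℝ, θ < 1 - 2 / (j.1.2.2.1 : ℝ) →
        ∀ y ∈ U, 0 < y → ∃ H₀ : ℝ,
          ∀ Q ∈ Exc K j.1.1 j.1.2.1 j.1.2.2.1 (η j.1) j.1.2.2.2 (-(j.2 : ℝ)), Near ν θ y x (size Q) →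
            size Q < H₀ := by
      intro j
      by_cases hj : Adm j.1
      · filter_upwards [Pool.Agent.V11001.KM.ae_family_threshold size hν
          (s := 2 / (j.1.2.2.1 : ℝ)) (by positivity) U hU (J := Unit)
          (fun _ => Exc K j.1.1 j.1.2.1 j.1.2.2.1 (η j.1) j.1.2.2.2 (-(j.2 : ℝ)))
          (fun _ ε hε => hcount j.1 hj _ ε hε)] with x hx _ hx1 θ hθ y hy hy0
        exact hx hx1 θ hθ y hy hy0 ()
      · exact Eventually.of_forall fun x g1 => absurd g1 hj
    filter_upwards [ae_all_iff.2 hq] with x hx hx1 y hy hy0 n D q' hD hq' θ hθ M hM c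
    obtain ⟨l, hl⟩ := exists_nat_ge (-c)
    have hb := between_spec hM
    obtain ⟨H₀, hH⟩ := hx ((n, D, q', between D q' M), l) ⟨hD, hq', hb.1⟩ hx1 θ hθ y hy hy0
    exact ⟨H₀, holds_of (l := l) hb.2.le hl fun Q hQ hW => absurd (hH Q hQ hW.2) (not_lt.2 hW.1)⟩

end Pool.Agent.Results.MP_7475bd_nt.RadicalsNearPowers
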