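import Pool.Agent.Results.MP_7475bd_nt.AllRationalCurvesAtOnce
import Pool.Agent.Y854.GM.Win

/-!
# Windows of radicals in which the n-term abc inequality holds without exceptions on all rational curves

`K` is a number field. For a point `Z` with nonzero coordinates in `K` let `R(Z)` be the product of the norms of the
primes at which the orders of the coordinates are not all equal, so that `log R(Z) = [K : ℚ] rad(Z)`. We consider all
curves `t ↦ (P 0 (t) : ... : P (n-1) (t))` over `K` of degree `D` which meet the coordinate hyperplanes in `q ≥ 3` points,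
all of them `K`-rational; for example those which lie in the hyperplane `Z_1 + ... + Z_n = 0`. The height of the curve
may be as large as a small multiple of the radical of the point.

Let `v_1, v_2, ... ≥ 1` be a sequence of exponent of convergence at most `τ` (`τ = 0` for `v_k = 2 ^ k`, `τ = 1 / A` for
`v_k = k ^ A`) and `θ < 1`. For all `α > 0` outside a set of Hausdorff dimension at most `(2 / q + τ) / (1 - θ)`, for all
`n`, `D`, `q' ≥ q`, `M > D / q'` and `c` and all large `k`: ALL points `Z` with `|R(Z) - α v_k| ≤ v_k ^ θ`, of whatever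
height, on ALL these curves satisfy `h(Z) < M rad(Z) + c`.
-/

set_option autoImplicit false

namespace Pool.Agent.Results.MP_7475bd_nt.WindowsOfRadicals

open NumberField IsDedekindDomain Polynomial
open AllRationalCurvesAtOnce (zeros rad height Curve coordinates Exceptions)

variable {K : Type} [Field K] [NumberField K]

/-- the product of the norms of the primes at which the orders of the coordinates are not all equal -/
noncomputable def normRad {n : ℕ} (z : Fin n → K) : ℝ :=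
  Real.exp (Module.finrank ℚ K * rad z)

/-- The inequality `h(Z) < M rad(Z) + c` holds for all points `Z`, with nonzero coordinates and with `R(Z)` in `W`, on all
split curves of degree `D` which meet the coordinate hyperplanes in `q` points and whose height is at most
`η rad(Z)`. -/
def Holds (K : Type) [Field K] [NumberField K] (n D q : ℕ) (η M c : ℝ) (W : Set ℝ) : Prop :=
  ∀ (P : Fin n → K[X]) (t : Option K), Curve n D q (η * rad (coordinates D P t)) P →
    (∀ i, coordinates D P t i ≠ 0) → normRad (coordinates D P t) ∈ W →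
    height (coordinates D P t) < M * rad (coordinates D P t) + c

/-- The exponent of convergence of `v` is at most `τ`: the sum of `v_k ^ (-t)` is finite for all `t > τ`. -/
def ExpLe (v : ℕ → ℝ) (τ : ℝ) : Prop := ∀ t : ℝ, τ < t → Summable fun k : ℕ => v k ^ (-t)

theorem rad_smul {n : ℕ} {a : K} (ha : a ≠ 0) (z : Fin n → K) : rad (a • z) = rad z := by
  unfold rad
  have h : {v : HeightOneSpectrum (𝓞 K) | ∃ i j, v.valuation K ((a • z) i) ≠ v.valuation K ((a • z) j)} =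
      {v : HeightOneSpectrum (𝓞 K) | ∃ i j, v.valuation K (z i) ≠ v.valuation K (z j)} := by
    ext v
    simp only [Set.mem_ofPred_eq, Pi.smul_apply, smul_eq_mul, map_mul]
    have hv : v.valuation K a ≠ 0 := (Valuation.ne_zero_iff _).2 ha
    constructor
    · rintro ⟨i, j, hij⟩
      exact ⟨i, j, fun h => hij (by rw [h])⟩
    · rintro ⟨i, j, hij⟩
      exact ⟨i, j, fun h => hij (mul_left_cancel₀ hv h)⟩
  rw [h]

theorem rad_nonneg {n : ℕ} (z : Fin n → K) : 0 ≤ rad z := by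
  unfold rad
  refine div_nonneg (finsum_nonneg fun v => finsum_nonneg fun _ => ?_) (Nat.cast_nonneg _)
  refine Real.log_nonneg ?_
  have h1 : 1 ≤ Ideal.absNorm v.asIdeal := by
    rw [Nat.one_le_iff_ne_zero]
    intro h0
    exact v.ne_bot (Ideal.absNorm_eq_zero_iff.1 h0)
  exact_mod_cast h1

/-- the size of a point of projective space -/
noncomputable def size {n : ℕ} (Q : Projectivization K (Fin n → K)) : ℝ := normRad Q.rep

theorem size_mk {n : ℕ} (z : Fin n → K) (hz : z ≠ 0) : size (Projectivization.mk K z hz) = normRad z := by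
  obtain ⟨a, ha⟩ := Projectivization.exists_smul_eq_mk_rep K z hz
  unfold size normRad
  rw [← ha]
  have h1 : a • z = (a : K) • z := rfl
  rw [h1, rad_smul a.ne_zero]

theorem Curve.mono {n D q : ℕ} {B B' : ℝ} {P : Fin n → K[X]} (h : Curve n D q B P) (hB : B ≤ B') :
    Curve n D q B' P :=
  ⟨h.ne_zero, h.splits, h.coprime, h.degree_le, h.degree_eq, h.points, h.height_le.trans hB⟩

/-- the exceptional points -/
def Exc (K : Type) [Field K] [NumberField K] (n D q : ℕ) (η M c : ℝ) : Set (Projectivization K (Fin n → K)) :=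
  {Q | ∃ (P : Fin n → K[X]) (t : Option K) (hx : coordinates D P t ≠ 0),
    Q = Projectivization.mk K (coordinates D P t) hx ∧ (∀ i, coordinates D P t i ≠ 0) ∧
    Curve n D q (η * rad (coordinates D P t)) P ∧
    M * rad (coordinates D P t) + c ≤ height (coordinates D P t)}

/-- the count of the exceptional points -/
theorem count (K : Type) [Field K] [NumberField K] (n D q : ℕ) (hD : 1 ≤ D) (hq : 3 ≤ q) (M : ℝ)
    (hM : (D : ℝ) / q < M) : ∃ η : ℝ, 0 < η ∧ ∀ c ε : ℝ, 0 < ε → ∃ C : ℝ, ∀ X : ℝ, 1 ≤ X →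
      {Q | Q ∈ Exc K n D q η M c ∧ size Q ≤ X}.Finite ∧
      (({Q | Q ∈ Exc K n D q η M c ∧ size Q ≤ X}.ncard : ℕ) : ℝ) ≤ C * X ^ (2 / (q : ℝ) + ε) := by
  obtain ⟨-, h2, -⟩ := AllRationalCurvesAtOnce.result K n D q hD hq
  obtain ⟨η, ν, hη, hν, h3⟩ := h2 M hM
  refine ⟨η, hη, fun c ε hε => ?_⟩
  obtain ⟨⟨C, hC⟩, -⟩ := h3 c
  refine ⟨|C|, fun X hX => ?_⟩
  set d : ℝ := (Module.finrank ℚ K : ℝ) with hd
  have hd0 : 0 < d := by
    have := Module.finrank_pos (R := ℚ) (M := K)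
    rw [hd]
    exact_mod_cast this
  have hX0 : 0 < X := by linarith
  set Y : ℝ := X ^ (1 / d) with hY
  have hY1 : 1 ≤ Y := Real.one_le_rpow hX (by positivity)
  have hlogY : Real.log Y = Real.log X / d := by
    rw [hY, Real.log_rpow hX0]
    ring
  have hsub : {Q | Q ∈ Exc K n D q η M c ∧ size Q ≤ X} ⊆ Exceptions K n D q η M c Y := by
    rintro Q ⟨⟨P, t, hx, rfl, hne, hP, hbad⟩, hs⟩
    rw [size_mk] at hs
    have h4 : rad (coordinates D P t) ≤ Real.log Y := by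
      rw [hlogY, le_div_iff₀ hd0, mul_comm]
      unfold normRad at hs
      exact (Real.le_log_iff_exp_le hX0).2 hs
    exact ⟨P, Curve.mono hP (mul_le_mul_of_nonneg_left h4 hη.le), t, hx, rfl, hne, h4, hbad⟩
  obtain ⟨h5, h6⟩ := hC Y hY1
  refine ⟨h5.subset hsub, ?_⟩
  have h7 : (({Q | Q ∈ Exc K n D q η M c ∧ size Q ≤ X}.ncard : ℕ) : ℝ) ≤
      ((Exceptions K n D q η M c Y).ncard : ℝ) := by
    exact_mod_cast Set.ncard_le_ncard hsub h5
  refine h7.trans (h6.trans ?_)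
  have hq0 : (0 : ℝ) < q := by exact_mod_cast (by omega : 0 < q)
  have h8 : Y ^ (2 * d / (q : ℝ) - ν) = X ^ (2 / (q : ℝ) - ν / d) := by
    rw [hY, ← Real.rpow_mul hX0.le]
    congr 1
    field_simp
  rw [h8]
  calc C * X ^ (2 / (q : ℝ) - ν / d) ≤ |C| * X ^ (2 / (q : ℝ) - ν / d) :=
        mul_le_mul_of_nonneg_right (le_abs_self C) (Real.rpow_nonneg hX0.le _)
    _ ≤ |C| * X ^ (2 / (q : ℝ) + ε) := by
        apply mul_le_mul_of_nonneg_left _ (abs_nonneg C)
        apply Real.rpow_le_rpow_of_exponent_le hX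
        have : 0 ≤ ν / d := by positivity
        linarith

/-- the admissible parameters `(n, D, q, M)` -/
def Adm (j : ℕ × ℕ × ℕ × ℚ) : Prop := 1 ≤ j.2.1 ∧ 3 ≤ j.2.2.1 ∧ (j.2.1 : ℝ) / j.2.2.1 < (j.2.2.2 : ℝ)

theorem exists_eta (K : Type) [Field K] [NumberField K] : ∃ η : ℕ × ℕ × ℕ × ℚ → ℝ, (∀ j, 0 < η j) ∧
    ∀ j, Adm j → ∀ c ε : ℝ, 0 < ε → ∃ C : ℝ, ∀ X : ℝ, 1 ≤ X →
      {Q | Q ∈ Exc K j.1 j.2.1 j.2.2.1 (η j) j.2.2.2 c ∧ size Q ≤ X}.Finite ∧
      (({Q | Q ∈ Exc K j.1 j.2.1 j.2.2.1 (η j) j.2.2.2 c ∧ size Q ≤ X}.ncard : ℕ) : ℝ) ≤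
        C * X ^ (2 / (j.2.2.1 : ℝ) + ε) := by
  have h : ∀ j : ℕ × ℕ × ℕ × ℚ, ∃ η : ℝ, 0 < η ∧ (Adm j → ∀ c ε : ℝ, 0 < ε → ∃ C : ℝ, ∀ X : ℝ, 1 ≤ X →
      {Q | Q ∈ Exc K j.1 j.2.1 j.2.2.1 η j.2.2.2 c ∧ size Q ≤ X}.Finite ∧
      (({Q | Q ∈ Exc K j.1 j.2.1 j.2.2.1 η j.2.2.2 c ∧ size Q ≤ X}.ncard : ℕ) : ℝ) ≤
        C * X ^ (2 / (j.2.2.1 : ℝ) + ε)) := by
    intro j
    by_cases hj : Adm j
    · obtain ⟨η, h1, h2⟩ := count K j.1 j.2.1 j.2.2.1 hj.1 hj.2.1 j.2.2.2 hj.2.2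
      exact ⟨η, h1, fun _ => h2⟩
    · exact ⟨1, one_pos, fun h => absurd h hj⟩
  choose η h1 h2 using h
  exact ⟨η, h1, h2⟩

open Classical in
/-- a rational number between `D / q` and `M` -/
noncomputable def between (D q : ℕ) (M : ℝ) : ℚ :=
  if h : (D : ℝ) / q < M then (exists_rat_btwn h).choose else 0

theorem between_spec {D q : ℕ} {M : ℝ} (h : (D : ℝ) / q < M) :
    (D : ℝ) / q < (between D q M : ℝ) ∧ (between D q M : ℝ) < M := by
  unfold between
  rw [dif_pos h]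
  exact (exists_rat_btwn h).choose_spec

/-- from the exceptional sets to the inequality -/
theorem holds_of {n D q : ℕ} {η M' M c : ℝ} {l : ℕ} {W : Set ℝ} (hM : M' ≤ M) (hl : -c ≤ l)
    (h : ∀ Q ∈ Exc K n D q η M' (-(l : ℝ)), size Q ∉ W) : Holds K n D q η M c W := by
  intro P t hP hne hW
  by_contra hcon
  push Not at hcon
  have hx : coordinates D P t ≠ 0 := by
    intro h0
    obtain ⟨i, -⟩ := hP.degree_eq
    exact hne i (congrFun h0 i)
  refine h (Projectivization.mk K (coordinates D P t) hx) ⟨P, t, hx, rfl, hne, hP, ?_⟩ ?_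
  · have h1 := mul_le_mul_of_nonneg_right hM (rad_nonneg (coordinates D P t))
    linarith
  · rw [size_mk]
    exact hW

/-- **Theorem.** Let `K` be a number field. There are `η (n, D, q, M) > 0` such that for every `q ≥ 3`, every sequence
`v ≥ 1` of exponent of convergence at most `τ ≥ 0` and all `θ < 1` there is a set `E` of Hausdorff dimension at most
`(2 / q + τ) / (1 - θ)` such that for all `α > 0` outside `E`, all `n`, `D ≥ 1`, `q' ≥ q`, `M > D / q'`, all real `c` and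
all large `k`: all points `Z` with nonzero coordinates and `|R(Z) - α v_k| ≤ v_k ^ θ`, of whatever height, on all split
curves of degree `D` in `P^(n-1)` over `K` which meet the coordinate hyperplanes in `q'` points and whose height is at
most `η rad(Z)` satisfy `h(Z) < M rad(Z) + c`. The sequences `v_k = (k + 1) ^ a` and `v_k = b ^ k` have exponent of
convergence at most `1 / a` and `0`. -/
theorem result (K : Type) [Field K] [NumberField K] :
    (∃ η : ℕ → ℕ → ℕ → ℝ → ℝ, (∀ n D q M, 0 < η n D q M) ∧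
      ∀ q : ℕ, 3 ≤ q → ∀ (v : ℕ → ℝ) (τ θ : ℝ), (∀ k, 1 ≤ v k) → 0 ≤ τ → ExpLe v τ → θ < 1 →
        ∃ E : Set ℝ, dimH E ≤ ENNReal.ofReal ((2 / q + τ) / (1 - θ)) ∧
          ∀ α : ℝ, 0 < α → α ∉ E → ∀ n D q' : ℕ, 1 ≤ D → q ≤ q' → ∀ M : ℝ, (D : ℝ) / q' < M → ∀ c : ℝ,
            ∃ k₀ : ℕ, ∀ k : ℕ, k₀ ≤ k →
              Holds K n D q' (η n D q' M) M c {R : ℝ | |R - α * v k| ≤ v k ^ θ}) ∧
    (∀ a : ℝ, 0 < a → ExpLe (fun n : ℕ => ((n : ℝ) + 1) ^ a) (1 / a)) ∧
    (∀ b : ℝ, 1 < b → ExpLe (fun n : ℕ => b ^ n) 0) := by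
  classical
  refine ⟨?_, fun κ hκ => Pool.Agent.Y854.GM.expLe_pow κ hκ, fun b hb => Pool.Agent.Y854.GM.expLe_geom b hb⟩
  obtain ⟨η, hη, hcount⟩ := exists_eta K
  refine ⟨fun n D q M => η (n, D, q, between D q M), fun n D q M => hη _, fun q hq v τ θ hv1 hτ hv hθ => ?_⟩
  have h1θ : 0 < 1 - θ := by linarith
  have hall : ∀ j : (ℕ × ℕ × ℕ × ℚ) × ℕ, ∃ E : Set ℝ, dimH E ≤ ENNReal.ofReal ((2 / q + τ) / (1 - θ)) ∧
      (Adm j.1 → q ≤ j.1.2.2.1 → ∀ α : ℝ, 0 < α → α ∉ E → ∃ k₀ : ℕ, ∀ k : ℕ, k₀ ≤ k →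
        ∀ Q ∈ Exc K j.1.1 j.1.2.1 j.1.2.2.1 (η j.1) j.1.2.2.2 (-(j.2 : ℝ)), (v k) ^ θ < |size Q - α * v k|) := by
    intro j
    by_cases hj : Adm j.1 ∧ q ≤ j.1.2.2.1
    · obtain ⟨E, h1, h2⟩ := Pool.Agent.Y854.GM.windows
        (Exc K j.1.1 j.1.2.1 j.1.2.2.1 (η j.1) j.1.2.2.2 (-(j.2 : ℝ))) size hv1 hτ hv
        (s := 2 / (j.1.2.2.1 : ℝ)) (by positivity) hθ (fun ε hε => hcount j.1 hj.1 _ ε hε)
      refine ⟨E, h1.trans (ENNReal.ofReal_le_ofReal ?_), fun _ _ => h2⟩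
      refine div_le_div_of_nonneg_right ?_ h1θ.le
      have hq0 : (0 : ℝ) < q := by exact_mod_cast (by omega : 0 < q)
      have h3 : (q : ℝ) ≤ j.1.2.2.1 := by exact_mod_cast hj.2
      have := div_le_div_of_nonneg_left (show (0 : ℝ) ≤ 2 by norm_num) hq0 h3
      linarith
    · refine ⟨∅, by simp, fun g1 g2 => absurd ⟨g1, g2⟩ hj⟩
  choose E hE1 hE2 using hall
  refine ⟨⋃ j, E j, ?_, fun α hα hαE n D q' hD hq' M hM c => ?_⟩
  · rw [dimH_iUnion]
    exact iSup_le hE1
  · obtain ⟨l, hl⟩ := exists_nat_ge (-c)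
    have hb := between_spec hM
    obtain ⟨k₀, hk⟩ := hE2 ((n, D, q', between D q' M), l) ⟨hD, hq.trans hq', hb.1⟩ hq' α hα
      (fun h => hαE (Set.mem_iUnion.2 ⟨_, h⟩))
    refine ⟨k₀, fun k hkk => holds_of (l := l) hb.2.le hl fun Q hQ hW => ?_⟩
    exact absurd hW (not_le.2 (hk k hkk Q hQ))

end Pool.Agent.Results.MP_7475bd_nt.WindowsOfRadicals
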